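import Pool.Agent.N731.HV.Corr

set_option autoImplicit false

/-!
# MP_00e05b_nt: the correlations of the zeros of zeta and of the de Bruijn-Newman family

`H t z` is the integral of `exp (t * u ^ 2) * Phi u * cos (z * u)` over `u > 0`, so that `H 0 z` is
`ξ(1/2 + i z / 2) / 8`: the zeros of `H 0` are the numbers `z` for which `1/2 + i z / 2` is a nontrivial zero
of zeta, and `Re z / 2` is its ordinate.  The mean spacing of the ordinates is `2π / log T`.

The pair correlation conjecture (which follows from Q1, Montgomery) says that the number of pairs of different zeros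
with ordinates in `(0, T]` (zeros repeated according to multiplicity) whose normalised difference is in `[α, β]` is
`(T / 2π) log T` times the integral of `1 - (sin πu / πu)²` over `[α, β]`, up to `o(T log T)`; the GUE hypothesis is the
same for `(k + 1)`-tuples, with the determinants of the sine kernel.

No hypothesis is assumed.

* At times `t ≤ δ / log² T` the numbers of `(k + 1)`-tuples of different zeros with ordinates in `(0, T]` and
  normalised differences in a box are the same for zeta and for `H t`, up to a change of the box by `ε` and an error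
  `ε T log T`.
* So, if `t(T) log² T → 0`, the zeros of zeta have the `k`-th correlation density `D` (`D` any locally integrable
  function) if and only if this is true of the zeros of `H (t T)`.  In particular this holds for the pair correlation
  conjecture and for all of the GUE hypothesis.
* If `t(T) log² T → ∞` and `t(T) log T` is bounded, then for some `c > 0` and all `ε > 0` there are at least
  `c T log T` pairs of zeros of `H (t T)` whose normalised difference is in `[1 - ε, 1 + ε]`; so the pairs of zeros have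
  no correlation density at all, and the pair correlation conjecture is false for these functions.
-/

open Filter Topology Set MeasureTheory

namespace Pool.Agent.Results.MP_00e05b_nt.HeatFlowCorrelations

/-- The de Bruijn-Newman kernel. -/
noncomputable def Phi (u : ℝ) : ℝ := ∑' n : ℕ,
  (2 * Real.pi ^ 2 * ((n : ℝ) + 1) ^ 4 * Real.exp (9 * u) -
    3 * Real.pi * ((n : ℝ) + 1) ^ 2 * Real.exp (5 * u)) *
    Real.exp (-(Real.pi * ((n : ℝ) + 1) ^ 2 * Real.exp (4 * u)))

/-- The de Bruijn-Newman family: the integral of `exp (t u²) Φ(u) cos (z u)` over `u > 0`. -/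
noncomputable def H (t : ℝ) (z : ℂ) : ℂ :=
  ∫ u in Set.Ioi (0 : ℝ), ((Real.exp (t * u ^ 2) * Phi u : ℝ) : ℂ) * Complex.cos (z * u)

/-- The nontrivial zeros of zeta; a zero of order `m` gives `m` elements. -/
def zetaZeros : Set (ℂ × ℕ) := {p | 0 < p.1.re ∧ p.1.re < 1 ∧ p.2 < analyticOrderNatAt riemannZeta p.1}

/-- The zeros of `H t`; a zero of order `m` gives `m` elements. -/
def heatZeros (t : ℝ) : Set (ℂ × ℕ) := {p | p.2 < analyticOrderNatAt (H t) p.1}

/-- The number of `(k + 1)`-tuples of different elements of `Z`, with ordinates (given by `y`) in `(0, T]`, such that the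
differences of the ordinates to the first one, multiplied by `log T / 2π`, are in the box `[α, β]`. -/
noncomputable def tuples (Z : Set (ℂ × ℕ)) (y : ℂ → ℝ) (k : ℕ) (T : ℝ) (α β : Fin k → ℝ) : ℝ :=
  ({x : Fin (k + 1) → ℂ × ℕ | (∀ i, x i ∈ Z) ∧ Function.Injective x ∧ (∀ i, 0 < y (x i).1 ∧ y (x i).1 ≤ T) ∧
    ∀ i : Fin k, α i ≤ (y (x i.succ).1 - y (x 0).1) * (Real.log T / (2 * Real.pi)) ∧
      (y (x i.succ).1 - y (x 0).1) * (Real.log T / (2 * Real.pi)) ≤ β i}.ncard : ℝ)

/-- The number of tuples of zeros of zeta. -/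
noncomputable def zetaTuples (k : ℕ) (T : ℝ) (α β : Fin k → ℝ) : ℝ := tuples zetaZeros (fun z => z.im) k T α β

/-- The number of tuples of zeros of `H t`. -/
noncomputable def heatTuples (t : ℝ) (k : ℕ) (T : ℝ) (α β : Fin k → ℝ) : ℝ :=
  tuples (heatZeros t) (fun z => z.re / 2) k T α β

/-- The numbers `N T α β`, divided by `(T / 2π) log T`, converge to the integral of `D` over the box `[α, β]`. -/
def Density {k : ℕ} (N : ℝ → (Fin k → ℝ) → (Fin k → ℝ) → ℝ) (D : (Fin k → ℝ) → ℝ) : Prop :=
  ∀ α β : Fin k → ℝ, (∀ i, α i < β i) →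
    Tendsto (fun T : ℝ => N T α β / (T / (2 * Real.pi) * Real.log T)) atTop (𝓝 (∫ u in Icc α β, D u))

/-- The correlation densities of the GUE: the determinants of the sine kernel `sin (π (x - y)) / (π (x - y))` at the
points `0, u 0, …, u (k - 1)`. -/
noncomputable def gue (k : ℕ) (u : Fin k → ℝ) : ℝ :=
  Matrix.det (Matrix.of fun i j : Fin (k + 1) =>
    Real.sinc (Real.pi * ((Fin.cons 0 u : Fin (k + 1) → ℝ) i - (Fin.cons 0 u : Fin (k + 1) → ℝ) j)))

/-- The pair correlation conjecture for `N`. -/
def PairCorrelation (N : ℝ → (Fin 1 → ℝ) → (Fin 1 → ℝ) → ℝ) : Prop :=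
  Density N fun u => 1 - (Real.sinc (Real.pi * u 0)) ^ 2

lemma cont_gue (k : ℕ) : Continuous (gue k) := by
  unfold gue
  apply Continuous.matrix_det
  apply continuous_matrix
  intro i j
  simp only [Matrix.of_apply]
  have h : ∀ i : Fin (k + 1), Continuous fun u : Fin k → ℝ => (Fin.cons 0 u : Fin (k + 1) → ℝ) i := by
    intro i
    refine Fin.cases ?_ (fun i => ?_) i
    · simp only [Fin.cons_zero]; exact continuous_const
    · simp only [Fin.cons_succ]; exact continuous_apply i
  exact Real.continuous_sinc.comp (continuous_const.mul ((h i).sub (h j)))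

theorem result :
    (∀ (k : ℕ) (α β : Fin k → ℝ) (ε : ℝ), 0 < ε → ∃ δ T₀ : ℝ, 0 < δ ∧
      ∀ T t : ℝ, T₀ ≤ T → 0 ≤ t → t ≤ δ / Real.log T ^ 2 →
      zetaTuples k T α β ≤ heatTuples t k T (fun i => α i - ε) (fun i => β i + ε) + ε * (T * Real.log T) ∧
      heatTuples t k T α β ≤ zetaTuples k T (fun i => α i - ε) (fun i => β i + ε) + ε * (T * Real.log T)) ∧
    (∀ t : ℝ → ℝ, (∀ T, 0 ≤ t T) → Tendsto (fun T => t T * Real.log T ^ 2) atTop (𝓝 0) →
      (∀ (k : ℕ) (D : (Fin k → ℝ) → ℝ), LocallyIntegrable D →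
        (Density (zetaTuples k) D ↔ Density (fun T => heatTuples (t T) k T) D)) ∧
      (PairCorrelation (zetaTuples 1) ↔ PairCorrelation (fun T => heatTuples (t T) 1 T)) ∧
      (∀ k : ℕ, Density (zetaTuples k) (gue k) ↔ Density (fun T => heatTuples (t T) k T) (gue k))) ∧
    (∀ (t : ℝ → ℝ) (A : ℝ), (∀ T, 0 ≤ t T) → (∀ᶠ T in atTop, t T * Real.log T ≤ A) →
      Tendsto (fun T => t T * Real.log T ^ 2) atTop atTop →
      (∃ c : ℝ, 0 < c ∧ ∀ ε : ℝ, 0 < ε → ∀ᶠ T : ℝ in atTop,
        c * (T * Real.log T) ≤ heatTuples (t T) 1 T (fun _ => 1 - ε) (fun _ => 1 + ε)) ∧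
      (∀ D : (Fin 1 → ℝ) → ℝ, LocallyIntegrable D → ¬ Density (fun T => heatTuples (t T) 1 T) D) ∧
      ¬ PairCorrelation (fun T => heatTuples (t T) 1 T)) := by
  have hpc : LocallyIntegrable (fun u : Fin 1 → ℝ => 1 - (Real.sinc (Real.pi * u 0)) ^ 2) := by
    apply Continuous.locallyIntegrable
    exact continuous_const.sub ((Real.continuous_sinc.comp (continuous_const.mul (continuous_apply 0))).pow 2)
  refine ⟨fun k α β ε hε => ?_, fun t ht ht2 => ?_, fun t A ht hA ht2 => ?_⟩
  · obtain ⟨δ, T0, hδ, -, h⟩ := Pool.Agent.R838.ST.cmp k α β ε hε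
    exact ⟨δ, T0, hδ, fun T t h1 h2 h3 => h T t h1 h2 h3⟩
  · have h1 : ∀ (k : ℕ) (D : (Fin k → ℝ) → ℝ), LocallyIntegrable D →
        (Density (zetaTuples k) D ↔ Density (fun T => heatTuples (t T) k T) D) :=
      fun k D hD => Pool.Agent.N731.HV.law_equiv ht ht2 hD
    exact ⟨h1, h1 1 _ hpc, fun k => h1 k _ (cont_gue k).locallyIntegrable⟩
  · have h1 : ∀ D : (Fin 1 → ℝ) → ℝ, LocallyIntegrable D → ¬ Density (fun T => heatTuples (t T) 1 T) D :=
      fun D hD => Pool.Agent.N731.HV.no_law ht hA ht2 hD
    exact ⟨Pool.Agent.N731.HV.many_one ht hA ht2, h1, h1 _ hpc⟩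

end Pool.Agent.Results.MP_00e05b_nt.HeatFlowCorrelations
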