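import Pool.Agent.N805.FL7

/-!
# Linear repulsion of the zeros and the weighted mass of `F(α, T)` beyond `α = 1`

Assume the Riemann hypothesis and put
`W(T, R) = ∫_{1/2}^R (1 - α/R) (F(α, T) - min(α, 1)) dα`.
Montgomery's theorem describes `F` on `(-1, 1)`; what is unknown is `F` beyond `1`.  We show that
the number of the pairs of zeros at normalised distance at most `β` is
`(1 + o(β)) (T/2π) log T` (for `T → ∞`, then `β → 0`) if and only if `W(T, R) → 0` (for `T → ∞`,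
then `R → ∞`), with quantitative forms of both directions, and that `W` is never much smaller
than `0`.

Idea of the proof.  The sum of `(sin πRx / πRx)²` over the pairs (`x` the normalised difference) is
the pairing of `F` with a tent of length `R`, and by Montgomery's theorem it is
`1 + 2 W(T, R) / R + 1 / (3R²) + o(1)`.  From above the sum is estimated dyadically by the counts of
close pairs, with an error `O(1/R²)`; from below by the count of the pairs with `|x| ≤ 1/(2R)`.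
-/

open Filter Topology
open Complex (I)

namespace Pool.Agent.Results.MP_00e05b_nt.RepulsionCriterion

/-- the nontrivial zeros of `ζ` with ordinate in `(0, T]` -/
def zeros (T : ℝ) : Set ℂ :=
  {s : ℂ | 0 < s.re ∧ s.re < 1 ∧ 0 < s.im ∧ s.im ≤ T ∧ riemannZeta s = 0}

/-- the multiplicity of `s` as a zero of `ζ` -/
noncomputable def mult (s : ℂ) : ℕ := analyticOrderNatAt riemannZeta s

/-- `N(T; α, β)`: the number of ordered pairs of ordinates, with multiplicity, whose normalised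
difference lies in `[α, β]` -/
noncomputable def N (T α β : ℝ) : ℕ :=
  ∑ᶠ s ∈ zeros T, ∑ᶠ s' ∈ {s' : ℂ | s' ∈ zeros T ∧
    2 * Real.pi * α / Real.log T ≤ s.im - s'.im ∧ s.im - s'.im ≤ 2 * Real.pi * β / Real.log T},
      mult s * mult s'

/-- `(T / 2π) log T` -/
noncomputable def X (T : ℝ) : ℝ := T / (2 * Real.pi) * Real.log T

/-- Montgomery's function `F(α, T)` -/
noncomputable def F (α T : ℝ) : ℂ :=
  (X T : ℂ)⁻¹ * ∑ᶠ s ∈ zeros T, ∑ᶠ s' ∈ zeros T, (mult s : ℂ) * (mult s' : ℂ) *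
    ((T : ℂ) ^ (I * α * (s.im - s'.im)) * (4 / (4 + (s.im - s'.im) ^ 2)))

/-- the weighted mass of `F - min(α, 1)` on `(1/2, R)` -/
noncomputable def W (T R : ℝ) : ℝ :=
  ∫ α in (1 / 2 : ℝ)..R, (1 - α / R) * ((F α T).re - min α 1)

/-- `N(T; -β, β) ≤ (1 + κ β) (T / 2π) log T` for every `κ > 0`, all small `β > 0` and all large
`T` -/
def Repulsion (l : Filter ℝ) : Prop := ∀ κ : ℝ, 0 < κ → ∃ β₀ : ℝ, 0 < β₀ ∧
  ∀ β : ℝ, 0 < β → β ≤ β₀ → ∀ᶠ T in l, (N T (-β) β : ℝ) ≤ (1 + κ * β) * X T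

/-- Assume the Riemann hypothesis and let `T` tend to infinity along any filter `l` finer than
`atTop` (for instance `atTop` itself, or any sequence tending to infinity).

* The repulsion `N(T; -β, β) ≤ (1 + o(β)) (T/2π) log T` holds if and only if
  `lim_{R → ∞} limsup_T |W(T, R)| = 0`.
* Always `liminf_T W(T, R) ≥ -1/(6R)` for `R ≥ 1`.
* If `limsup_T N(T; -β, β) / X ≤ 1 + κβ` for `0 < β ≤ β₀`, then
  `limsup_{R → ∞} limsup_T W(T, R) ≤ 3κ/2`.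
* If `limsup_T W(T, R) ≤ M` for all `R ≥ R₀`, then
  `limsup_T N(T; -β, β) / X ≤ 1 + π² M β + (π²/3) β²` for `0 < β ≤ 1/(2R₀)`. -/
theorem result (hRH : RiemannHypothesis) (l : Filter ℝ) (hl : l ≤ atTop) :
    (Repulsion l ↔
      ∀ η : ℝ, 0 < η → ∃ R₀ : ℝ, ∀ R : ℝ, R₀ ≤ R → ∀ᶠ T in l, |W T R| ≤ η) ∧
    (∀ R : ℝ, 1 ≤ R → ∀ ε : ℝ, 0 < ε → ∀ᶠ T in l, -(1 / (6 * R)) - ε ≤ W T R) ∧
    (∀ κ β₀ : ℝ, 0 ≤ κ → 0 < β₀ →
      (∀ β : ℝ, 0 < β → β ≤ β₀ → ∀ ε : ℝ, 0 < ε → ∀ᶠ T in l,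
        (N T (-β) β : ℝ) ≤ (1 + κ * β + ε) * X T) →
      ∀ η : ℝ, 0 < η → ∃ R₀ : ℝ, ∀ R : ℝ, R₀ ≤ R → ∀ᶠ T in l, W T R ≤ 3 / 2 * κ + η) ∧
    (∀ M R₀ : ℝ, 1 ≤ R₀ → (∀ R : ℝ, R₀ ≤ R → ∀ ε : ℝ, 0 < ε → ∀ᶠ T in l, W T R ≤ M + ε) →
      ∀ β : ℝ, 0 < β → β ≤ 1 / (2 * R₀) → ∀ ε : ℝ, 0 < ε → ∀ᶠ T in l,
        (N T (-β) β : ℝ) ≤ (1 + Real.pi ^ 2 * M * β + Real.pi ^ 2 / 3 * β ^ 2 + ε) * X T) :=
  Pool.Agent.N805.FL.rep_main hRH l hl

end Pool.Agent.Results.MP_00e05b_nt.RepulsionCriterion
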