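import Pool.Agent.N804.PV.AllW
import Pool.Agent.N804.FGlue
import Pool.Agent.N804.FEnd

/-!
# The strong pair correlation conjecture in mean: the upper half for primes suffices

Q1 is equivalent (Goldston and Montgomery, under the Riemann Hypothesis) to an asymptotic formula
`J(X, h) ~ h X log (X / h)` for Selberg's integral, uniformly for `X^ε ≤ h ≤ X^(1-ε)`.  Here the
formula is considered in mean over `X` (`h = X / T`, `1 ≤ log X / log T ≤ A`).  The upper half of
it implies the lower half, the Riemann Hypothesis, and Q1 in the mean over windows.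
-/

open Filter Topology MeasureTheory

namespace Pool.Agent.Results.MP_00e05b_nt.SelbergMean

/-- multiplicity of `s` as a zero of the Riemann zeta function (order of vanishing at `s`) -/
noncomputable def zmult (s : ℂ) : ℕ := analyticOrderNatAt riemannZeta s

/-- the nontrivial zeros of `ζ` -/
def ZZ : Set ℂ := {s : ℂ | riemannZeta s = 0 ∧ 0 < s.re ∧ s.re < 1}

/-- Montgomery's function `F(α, T)`, the sum over all ordered pairs of ordinates in `(0, T]` of
nontrivial zeros, counted with multiplicity; `T^{iα(γ-γ')}` is replaced by its real part -/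
noncomputable def F (α T : ℝ) : ℝ :=
  (∑ᶠ p ∈ {p : ℂ × ℂ | p.1 ∈ ZZ ∧ p.2 ∈ ZZ ∧ 0 < p.1.im ∧ p.1.im ≤ T ∧ 0 < p.2.im ∧ p.2.im ≤ T},
    (zmult p.1 : ℝ) * (zmult p.2 : ℝ) *
      (Real.cos (α * (p.1.im - p.2.im) * Real.log T) * (4 / (4 + (p.1.im - p.2.im) ^ 2)))) /
    (T * Real.log T / (2 * Real.pi))

/-- Selberg's integral `J(X, h) = ∫_0^X (ψ(x + h) - ψ(x) - h)² dx` -/
noncomputable def J (X h : ℝ) : ℝ :=
  ∫ x in (0 : ℝ)..X, (Chebyshev.psi (x + h) - Chebyshev.psi x - h) ^ 2

/-- the ratio of `J(X, h)` and `h X log (X/h)` for `X = T^α`, `h = X/T` -/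
noncomputable def Q (T α : ℝ) : ℝ :=
  J (T ^ α) (T ^ α / T) / (T ^ α / T * T ^ α * Real.log (T ^ α / (T ^ α / T)))

/-- (1) The upper half of the asymptotic formula for Selberg's integral implies the asymptotic
formula, both in mean over `1 ≤ α ≤ A` for every `A`. (2) It implies the Riemann Hypothesis and
`∫_u^v F(α, T) dα → v - u` for all `1 ≤ u < v`. -/
theorem result :
    ((∀ A : ℝ, 1 < A → Tendsto (fun T : ℝ => ∫ α in (1 : ℝ)..A, max (Q T α - 1) 0) atTop (𝓝 0)) ↔
      ∀ A : ℝ, 1 < A → Tendsto (fun T : ℝ => ∫ α in (1 : ℝ)..A, |Q T α - 1|) atTop (𝓝 0)) ∧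
    ((∀ A : ℝ, 1 < A → Tendsto (fun T : ℝ => ∫ α in (1 : ℝ)..A, max (Q T α - 1) 0) atTop (𝓝 0)) →
      RiemannHypothesis ∧ ∀ u v : ℝ, 1 ≤ u → u < v →
        Tendsto (fun T : ℝ => ∫ α in u..v, F α T) atTop (𝓝 (v - u))) := by
  have hQ : ∀ T : ℝ, 1 < T → ∀ α : ℝ, Q T α = N804.PV.PSI 0 T α := by
    intro T hT α
    have hT0 : 0 < T := by linarith
    have hX : 0 < T ^ α := Real.rpow_pos_of_pos hT0 α
    have hL := Real.log_pos hT
    have e2 : T ^ α / (T ^ α / T) = T := by field_simp
    unfold Q N804.PV.PSI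
    have e3 : N804.PV.JV 0 T (T ^ α) = J (T ^ α) (T ^ α / T) := by
      unfold N804.PV.JV N804.PV.fE J
      rw [zero_mul, sub_zero]
    rw [e2, e3]
    field_simp
  have hint : ∀ T : ℝ, 2 ≤ T → ∀ a b : ℝ, IntervalIntegrable (Q T) volume a b := by
    intro T hT a b
    refine ((N804.PV.w1 0 le_rfl zero_le_one T hT).1 a b).congr fun α _ => ?_
    exact (hQ T (by linarith) α).symm
  have hW : ∀ T : ℝ, 2 ≤ T → ∀ u v : ℝ, 1 ≤ u → u ≤ v →
      ∫ α in u..v, Q T α = N804.PV.WV 0 T u v := by
    intro T hT u v hu huv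
    rw [(N804.PV.w1 0 le_rfl zero_le_one T hT).2.1 u v hu huv]
    exact intervalIntegral.integral_congr fun α _ => hQ T (by linarith) α
  obtain ⟨m1, m2⟩ := N804.PV.pw_main (show (0 : ℝ) ≤ 0 by norm_num) (by norm_num)
    (show (0 : ℝ) < 1 / 2 by norm_num) (by norm_num)
  have hev := eventually_ge_atTop (2 : ℝ)
  have hpos : ∀ (f : ℝ → ℝ) (a b : ℝ), IntervalIntegrable f volume a b →
      IntervalIntegrable (fun α => max (f α) 0) volume a b :=
    fun f a b h => ⟨h.1.pos_part, h.2.pos_part⟩
  -- the upper half gives everything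
  have key : (∀ A : ℝ, 1 < A →
      Tendsto (fun T : ℝ => ∫ α in (1 : ℝ)..A, max (Q T α - 1) 0) atTop (𝓝 0)) →
      RiemannHypothesis ∧ ∀ a : ℝ, 0 < a → Tendsto (fun T => N804.CF T a) atTop
        (𝓝 (N804.PP a)) := by
    intro h
    refine m1 (ae_of_all _ fun b hb ε hε => ?_)
    filter_upwards [(tendsto_order.1 (h b hb)).2 ε hε, hev] with T hT hT2
    have c1 : (1 : ℝ) ≤ max 1 (b - 1 / 2) := le_max_left _ _
    have c2 : max 1 (b - 1 / 2) ≤ b := max_le hb.le (by linarith)
    rw [← hW T hT2 _ _ c1 c2]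
    have hi := hint T hT2
    have hi2 : ∀ a b : ℝ, IntervalIntegrable (fun α => max (Q T α - 1) 0) volume a b :=
      fun a b => hpos _ _ _ ((hi a b).sub intervalIntegrable_const)
    have e1 : ∫ α in (max 1 (b - 1 / 2))..b, Q T α ≤
        ∫ α in (max 1 (b - 1 / 2))..b, (max (Q T α - 1) 0 + 1) := by
      refine intervalIntegral.integral_mono_on c2 (hi _ _) ((hi2 _ _).add intervalIntegrable_const)
        fun α _ => ?_
      linarith [le_max_left (Q T α - 1) 0]
    rw [intervalIntegral.integral_add (hi2 _ _) intervalIntegrable_const,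
      intervalIntegral.integral_const, smul_eq_mul, mul_one] at e1
    have e2 : ∫ α in (max 1 (b - 1 / 2))..b, max (Q T α - 1) 0 ≤
        ∫ α in (1 : ℝ)..b, max (Q T α - 1) 0 :=
      intervalIntegral.integral_mono_interval c1 c2 le_rfl
        (ae_of_all _ fun α => le_max_right _ _) (hi2 _ _)
    linarith
  refine ⟨⟨fun h A hA => ?_, fun h A hA => ?_⟩, fun h => ?_⟩
  · have h1 := m2 (key h) 1 A le_rfl hA
    have h2 := (h A hA).const_mul 2
    have h3 : Tendsto (fun T => 2 * (∫ α in (1 : ℝ)..A, max (Q T α - 1) 0) -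
        (N804.PV.WV 0 T 1 A - (A - 1))) atTop (𝓝 (2 * 0 - ((A - 1) - (A - 1)))) :=
      h2.sub (h1.sub_const _)
    rw [sub_self, mul_zero, sub_zero] at h3
    refine h3.congr' ?_
    filter_upwards [hev] with T hT2
    have hi := hint T hT2 1 A
    have hi2 : IntervalIntegrable (fun α => max (Q T α - 1) 0) volume 1 A :=
      hpos _ _ _ (hi.sub intervalIntegrable_const)
    rw [← hW T hT2 1 A le_rfl hA.le, ← intervalIntegral.integral_const_mul]
    have e : (A - 1 : ℝ) = ∫ α in (1 : ℝ)..A, (1 : ℝ) := by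
      rw [intervalIntegral.integral_const, smul_eq_mul, mul_one]
    rw [e, ← intervalIntegral.integral_sub hi intervalIntegrable_const,
      ← intervalIntegral.integral_sub (hi2.const_mul 2) (hi.sub intervalIntegrable_const)]
    refine intervalIntegral.integral_congr fun α _ => ?_
    show 2 * max (Q T α - 1) 0 - (Q T α - 1) = |Q T α - 1|
    rcases le_total (Q T α - 1) 0 with g | g
    · rw [max_eq_right g, abs_of_nonpos g]; ring
    · rw [max_eq_left g, abs_of_nonneg g]; ring
  · refine tendsto_of_tendsto_of_tendsto_of_le_of_le' tendsto_const_nhds (h A hA) ?_ ?_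
    · exact Eventually.of_forall fun T => intervalIntegral.integral_nonneg hA.le
        fun α _ => le_max_right _ _
    · filter_upwards [hev] with T hT2
      have hi := hint T hT2 1 A
      have hi2 : IntervalIntegrable (fun α => max (Q T α - 1) 0) volume 1 A :=
        hpos _ _ _ (hi.sub intervalIntegrable_const)
      refine intervalIntegral.integral_mono_on hA.le hi2 (hi.sub intervalIntegrable_const).abs
        fun α _ => max_le (le_abs_self _) (abs_nonneg _)
  · refine ⟨(key h).1, fun u v hu huv => ?_⟩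
    have hF : ∀ α T, F α T = N804.FT T α := fun α T => N804.ft_eq α T
    have h1 := (key h).2
    have h2 := N804.lower_half' (l := atTop) le_rfl (K := 0) (R := 1) (c := 1) one_pos
      fun a ha ε hε => by
        have h3 := (tendsto_order.1 (h1 a (by linarith))).1 (N804.PP a - ε) (by linarith)
        filter_upwards [h3] with T hT
        rw [zero_mul, sub_zero]
        exact hT.le
    have h4 := N804.Q_to_F (l := atTop) le_rfl h1 h2.2 (show 0 < u by linarith) huv
    have e : ∫ α in u..v, min |α| 1 = v - u := by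
      rw [intervalIntegral.integral_congr (g := fun _ => (1 : ℝ))]
      · rw [intervalIntegral.integral_const, smul_eq_mul, mul_one]
      · intro α hα
        rw [Set.uIcc_of_le huv.le] at hα
        show min |α| 1 = 1
        refine min_eq_right ?_
        rw [abs_of_pos (by linarith [hα.1])]
        linarith [hα.1]
    rw [e] at h4
    simpa only [hF] using h4

end Pool.Agent.Results.MP_00e05b_nt.SelbergMean
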